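import Pool.Agent.Helper50.CSB.G0
import Pool.Agent.Helper10.CSB.Q3

/-!
# The pattern (3,2,1): positivity of `nu`
-/

namespace H50R

open H45C Equiv

variable {α : Type*} [DecidableEq α]

/-- three blocks, the two upper sets are equal, the middle block has length one -/
theorem R3B_pos {X A B : Finset α} (hAB : A ⊆ B) {a c : ℤ} (ha : 1 ≤ a) (hc : 1 ≤ c)
    (h2 : (((B \ A) ∩ X).card : ℤ) ≤ a + 1) {z : Wd α} (hz : z ∈ WS X) (hn : WN z) :
    WN (R3 A B B a 1 c z) := by
  have h := rib_pos (X := X) (L := [((A, a) : Bl α), (B, 1), (B, c)])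
    ⟨by
      show A ⊆ (if (1 : ℤ) = 1 then B else B)
      rw [ite_self]
      exact hAB, ha, by
      show ((((if (1 : ℤ) = 1 then B else B) \ A) ∩ X).card : ℤ) ≤ a + ld [((B, 1) : Bl α), (B, c)]
      rw [ite_self]
      refine h2.trans ?_
      have : (1 : ℤ) ≤ ld [((B, 1) : Bl α), (B, c)] := by
        simp [ld]
      omega, le_refl B, le_refl (1 : ℤ), by
      show (((B \ B) ∩ X).card : ℤ) ≤ 1 + ((0 : ℕ) : ℤ)
      rw [Finset.sdiff_self, Finset.empty_inter, Finset.card_empty]
      norm_num, trivial⟩ hc hz hn
  rw [rib_cons, rib_cons, rib_cons, rib_single, rib_single, rib_single] at h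
  have e : R3 A B B a 1 c z = (Hop A a * (Hop B 1 * Hop B c - Hop B (1 + c)) -
      (Hop A (a + 1) * Hop B c - Hop A (a + 1 + c))) z := by
    unfold R3
    simp only [LinearMap.sub_apply, Module.End.mul_apply, map_sub]
    abel
  rw [e]
  exact h

/-- `B'_2 = B_2 - B_1 B_1 + B'_1 B_1`, the two forms of the upper part -/
theorem g2_upper_id {X B : Finset α} {q : α} (hqB : q ∈ B) (hq : q ∈ X) {z : Wd α} (hz : z ∈ WS X) :
    Hop B 2 z = Hop (B.erase q) 2 z + (Hop B 1 (Hop B 1 z) - Hop (B.erase q) 1 (Hop B 1 z)) := by
  have h := Hop_id0 hqB hq 2 hz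
  have e : (2 : ℤ) - 1 = 1 := by norm_num
  rw [e, ← Hop_comm (Finset.erase_subset q B) 1 1 hz] at h
  exact h

/-- the form of `R3` with the marked letter -/
theorem g2_R3_one {X A B : Finset α} {q : α} (hqA : q ∈ A) (hAB : A ⊆ B) (hq : q ∈ X) (k : ℤ)
    {z : Wd α} (hz : z ∈ WS X) : R3 A B B k 1 1 z =
      Hop A k (Hop (B.erase q) 1 (Hop B 1 z)) - Hop A k (Hop (B.erase q) 2 z) -
        Hop A (k + 1) (Hop (B.erase q) 1 z) + (Hop (A.erase q) (k + 2) z +
        ∑ l ∈ (B \ A) ∩ X, Hop A (k + 1) (rl (swap q l) z)) := by
  unfold R3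
  have h1 := Hop_id1 hqA hAB hq (k + 2) hz
  have e1 : k + 2 - 1 = k + 1 := by ring
  rw [e1] at h1
  have e2 : (1 : ℤ) + 1 = 2 := by norm_num
  have e3 : k + 1 + 1 = k + 2 := by ring
  rw [e2, e3, h1, g2_upper_id (hAB hqA) hq hz, map_add, map_sub]
  abel

theorem nu_eq {X A B : Finset α} {q : α} (hqA : q ∈ A) (hAB : A ⊆ B) (hq : q ∈ X) (k : ℤ)
    {z : Wd α} (hz : z ∈ WS X) :
    rho X A B q k 2 (Hop B 1 z) - Dd A B (k + 1) 2 z - rho X A B q k 3 z = nuk X A B q k z := by
  unfold rho Dd nuk
  have h1 := Hop_id1 hqA hAB hq (k + 2) (Hop_mem B 1 hz)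
  have e1 : k + 2 - 1 = k + 1 := by ring
  have e2 : k + 1 + 2 - 1 = k + 2 := by ring
  have e3 : k + 3 - 1 = k + 2 := by ring
  rw [e1] at h1
  rw [e1, e2, e3, h1, g2_upper_id (hAB hqA) hq hz, map_add, map_sub]
  abel

theorem nuk_mem {X A B : Finset α} {q : α} (hq : q ∈ X) (k : ℤ) {z : Wd α} (hz : z ∈ WS X) :
    nuk X A B q k z ∈ WS X := by
  unfold nuk
  refine Submodule.add_mem _ (Submodule.sub_mem _ (Submodule.sub_mem _
    (Hop_mem _ _ (Hop_mem _ _ (Hop_mem _ _ hz))) (Hop_mem _ _ (Hop_mem _ _ hz)))
    (Hop_mem _ _ (Hop_mem _ _ hz))) (Submodule.add_mem _ (Hop_mem _ _ hz)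
    (Submodule.sum_mem _ fun l hl => Hop_mem _ _ ?_))
  exact rl_swap_mem hq (Finset.mem_inter.1 hl).2 hz

/-- the operator `nuk` -/
noncomputable def nukE (X A B : Finset α) (q : α) (k : ℤ) : Module.End ℤ (Wd α) :=
  Hop A k * (Hop (B.erase q) 2 * Hop B 1) - Hop A k * Hop (B.erase q) 3 -
    Hop A (k + 1) * Hop (B.erase q) 2 + (Hop (A.erase q) (k + 3) +
    ∑ l ∈ (B \ A) ∩ X, Hop A (k + 2) * rl (swap q l))

theorem nukE_apply (X A B : Finset α) (q : α) (k : ℤ) (z : Wd α) :
    nukE X A B q k z = nuk X A B q k z := by
  unfold nukE nuk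
  rw [LinearMap.add_apply, LinearMap.add_apply, LinearMap.sub_apply, LinearMap.sub_apply,
    LinearMap.sum_apply]
  rfl

section t4

variable {Y A B : Finset α} {q h E : α}

/-- the triple product, another letter, the first letter is not `q` -/
theorem t4_ne (hh : h ∉ Y) (hE : E ∈ Y) (hqA : q ∈ A) (hAB : A ⊆ B) (hq : q ∈ Y) (k : ℤ)
    {z : Wd α} (hz : z ∈ WS Y) :
    pr E (Hop A k (Hop (B.erase q) 2 (Hop B 1 (cns h z)))) =
      Hop A k ((if h ∈ B ∧ (E = q ∨ E ∉ B) then
          Hop (B.erase q) 1 (rl (swap E h) (Hop B 1 z)) else 0) +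
        (if h ∈ B ∧ E ∉ B then Hop (B.erase q) 2 (rl (swap E h) z) else 0)) +
      (if h ∈ A ∧ E ∉ A then
        Hop A (k - 1) (rl (swap E h) (Hop (B.erase q) 2 (Hop B 1 z))) else 0) +
      if h ∈ B ∧ E ∉ A then
        Hop A (k - 1) (rl (swap E q) (Hop (B.erase q) 1 (rl (swap q h) (Hop B 1 z)))) else 0 := by
  have hhq : h ≠ q := ne3 hh hq
  have hsub := Finset.erase_subset q B
  have e1 : h ∈ B.erase q ↔ h ∈ B := by
    rw [Finset.mem_erase]
    exact ⟨fun h' => h'.2, fun h' => ⟨hhq, h'⟩⟩
  have e2 : ∀ G, G ∉ B.erase q ↔ (G = q ∨ G ∉ B) := by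
    intro G
    rw [Finset.mem_erase]
    tauto
  have a1 : (2 : ℤ) - 1 = 1 := by norm_num
  have a2 : (1 : ℤ) - 1 = 0 := by norm_num
  have key : ∀ G ∈ Y, pr G (Hop (B.erase q) 2 (Hop B 1 (cns h z))) =
      (if h ∈ B ∧ (G = q ∨ G ∉ B) then
          Hop (B.erase q) 1 (rl (swap G h) (Hop B 1 z)) else 0) +
        (if h ∈ B ∧ G ∉ B then Hop (B.erase q) 2 (rl (swap G h) z) else 0) := by
    intro G hG
    rw [pd_ne hh hG hsub 2 1 hz, a1, a2, Hop_zero, Module.End.one_apply]
    simp only [e1, e2]
  have hy : Hop (B.erase q) 2 (Hop B 1 (cns h z)) ∈ WS (insert h Y) :=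
    Hop_mem _ _ (Hop_mem _ _ (cns_mem hh hz))
  rw [pr_Hop hy (Finset.mem_insert_of_mem hE) A k, key E hE, add_assoc]
  congr 1
  by_cases hEA : E ∈ A
  · rw [if_pos hEA, if_neg fun h' => h'.2 hEA, if_neg fun h' => h'.2 hEA, add_zero]
  · rw [if_neg hEA]
    have hself : pr h (Hop (B.erase q) 2 (Hop B 1 (cns h z))) =
        Hop (B.erase q) 2 (Hop B 1 z) := pd_self hh hsub 2 1 hz
    have hqq : pr q (Hop (B.erase q) 2 (Hop B 1 (cns h z))) =
        if h ∈ B then Hop (B.erase q) 1 (rl (swap q h) (Hop B 1 z)) else 0 := by
      rw [key q hq, if_neg (fun h' => h'.2 (hAB hqA) : ¬ (h ∈ B ∧ q ∉ B)), add_zero]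
      simp only [true_or, and_true]
    have hrest : ∀ G ∈ Y ∩ A, G ≠ q → pr G (Hop (B.erase q) 2 (Hop B 1 (cns h z))) = 0 := by
      intro G hG hGq
      rw [Finset.mem_inter] at hG
      rw [key G hG.1, if_neg fun h' => h'.2.elim hGq fun h'' => h'' (hAB hG.2),
        if_neg fun h' => h'.2 (hAB hG.2), add_zero]
    have hsum : ∑ G ∈ Y ∩ A, Hop A (k - 1) (rl (swap E G)
        (pr G (Hop (B.erase q) 2 (Hop B 1 (cns h z))))) =
        if h ∈ B ∧ E ∉ A then
          Hop A (k - 1) (rl (swap E q) (Hop (B.erase q) 1 (rl (swap q h) (Hop B 1 z))))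
        else 0 := by
      rw [Finset.sum_eq_single q]
      · rw [hqq]
        by_cases hB : h ∈ B
        · rw [if_pos hB, if_pos ⟨hB, hEA⟩]
        · rw [if_neg hB, if_neg fun h' => hB h'.1, map_zero, map_zero]
      · intro G hG hGq
        rw [hrest G hG hGq, map_zero, map_zero]
      · intro h'
        exact absurd (Finset.mem_inter.2 ⟨hq, hqA⟩) h'
    by_cases hA : h ∈ A
    · rw [if_pos ⟨hA, hEA⟩, ← hsum, Finset.insert_inter_of_mem hA,
        Finset.sum_insert fun h' => hh (Finset.mem_inter.1 h').1, hself]
    · rw [if_neg fun h' => hA h'.1, zero_add, ← hsum, Finset.insert_inter_of_notMem hA]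

/-- the triple product, the same letter, the first letter is not `q` -/
theorem t4_self (hh : h ∉ Y) (hqA : q ∈ A) (hAB : A ⊆ B) (hq : q ∈ Y) (k : ℤ)
    {z : Wd α} (hz : z ∈ WS Y) :
    pr h (Hop A k (Hop (B.erase q) 2 (Hop B 1 (cns h z)))) =
      Hop A k (Hop (B.erase q) 2 (Hop B 1 z)) +
      if h ∉ A ∧ h ∈ B then Hop A (k - 1) (Hop B 1 (Hop B 1 z)) else 0 := by
  have hhq : h ≠ q := ne3 hh hq
  have hsub := Finset.erase_subset q B
  have e1 : h ∈ B.erase q ↔ h ∈ B := by
    rw [Finset.mem_erase]
    exact ⟨fun h' => h'.2, fun h' => ⟨hhq, h'⟩⟩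
  have e2 : ∀ G, G ∉ B.erase q ↔ (G = q ∨ G ∉ B) := by
    intro G
    rw [Finset.mem_erase]
    tauto
  have a1 : (2 : ℤ) - 1 = 1 := by norm_num
  have a2 : (1 : ℤ) - 1 = 0 := by norm_num
  have key : ∀ G ∈ Y, pr G (Hop (B.erase q) 2 (Hop B 1 (cns h z))) =
      (if h ∈ B ∧ (G = q ∨ G ∉ B) then
          Hop (B.erase q) 1 (rl (swap G h) (Hop B 1 z)) else 0) +
        (if h ∈ B ∧ G ∉ B then Hop (B.erase q) 2 (rl (swap G h) z) else 0) := by
    intro G hG
    rw [pd_ne hh hG hsub 2 1 hz, a1, a2, Hop_zero, Module.End.one_apply]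
    simp only [e1, e2]
  have hy : Hop (B.erase q) 2 (Hop B 1 (cns h z)) ∈ WS (insert h Y) :=
    Hop_mem _ _ (Hop_mem _ _ (cns_mem hh hz))
  rw [pr_Hop hy (Finset.mem_insert_self _ _) A k, pd_self hh hsub 2 1 hz]
  congr 1
  by_cases hA : h ∈ A
  · rw [if_pos hA, if_neg fun h' => h'.1 hA]
  · rw [if_neg hA, Finset.insert_inter_of_notMem hA]
    have hqq : pr q (Hop (B.erase q) 2 (Hop B 1 (cns h z))) =
        if h ∈ B then Hop (B.erase q) 1 (rl (swap q h) (Hop B 1 z)) else 0 := by
      rw [key q hq, if_neg (fun h' => h'.2 (hAB hqA) : ¬ (h ∈ B ∧ q ∉ B)), add_zero]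
      simp only [true_or, and_true]
    rw [Finset.sum_eq_single q]
    · rw [hqq]
      by_cases hB : h ∈ B
      · rw [if_pos hB, if_pos ⟨hA, hB⟩]
        have hz1 : Hop B 1 z ∈ WS Y := Hop_mem _ _ hz
        have hy1 : rl (swap q h) (Hop B 1 z) ∈ WS ((insert h Y).erase q) := swap_mem hh hq hz1
        rw [cj_in (Finset.notMem_erase _ _) (Finset.mem_erase.2 ⟨hhq, hB⟩) 1 hy1,
          Finset.insert_erase (hAB hqA), rl_rl, swap_comm h q, swap_mul_self, rl_one]
      · rw [if_neg hB, if_neg fun h' => hB h'.2, map_zero, map_zero]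
    · intro G hG hGq
      rw [Finset.mem_inter] at hG
      rw [key G hG.1, if_neg fun h' => h'.2.elim hGq fun h'' => h'' (hAB hG.2),
        if_neg fun h' => h'.2 (hAB hG.2), add_zero, map_zero, map_zero]
    · intro h'
      exact absurd (Finset.mem_inter.2 ⟨hq, hqA⟩) h'

/-- the triple product, another letter, the first letter is `q` -/
theorem t4q_ne (hq : q ∉ Y) (hE : E ∈ Y) (hqA : q ∈ A) (hAB : A ⊆ B) (k : ℤ)
    {z : Wd α} (hz : z ∈ WS Y) :
    pr E (Hop A k (Hop (B.erase q) 2 (Hop B 1 (cns q z)))) =
      (if E ∉ B then Hop A k (Hop (B.erase q) 2 (rl (swap E q) z)) else 0) +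
      (if E ∉ A then Hop A (k - 1) (rl (swap E q) (Hop (B.erase q) 2 (Hop B 1 z))) else 0) := by
  have hsub := Finset.erase_subset q B
  have a2 : (1 : ℤ) - 1 = 0 := by norm_num
  have hqB := hAB hqA
  have key : ∀ G ∈ Y, pr G (Hop (B.erase q) 2 (Hop B 1 (cns q z))) =
        (if G ∉ B then Hop (B.erase q) 2 (rl (swap G q) z) else 0) := by
    intro G hG
    rw [pd_ne hq hG hsub 2 1 hz, a2, Hop_zero, Module.End.one_apply,
      if_neg (fun h' => Finset.notMem_erase q B h'.1 : ¬ (q ∈ B.erase q ∧ G ∉ B.erase q)),
      zero_add]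
    simp only [hqB, true_and]
  have hy : Hop (B.erase q) 2 (Hop B 1 (cns q z)) ∈ WS (insert q Y) :=
    Hop_mem _ _ (Hop_mem _ _ (cns_mem hq hz))
  rw [pr_Hop hy (Finset.mem_insert_of_mem hE) A k, key E hE]
  congr 1
  · by_cases hEB : E ∈ B
    · rw [if_neg fun h' => h' hEB, if_neg fun h' => h' hEB, map_zero]
    · rw [if_pos hEB, if_pos hEB]
  · by_cases hEA : E ∈ A
    · rw [if_pos hEA, if_neg fun h' => h' hEA]
    · rw [if_neg hEA, if_pos hEA, Finset.insert_inter_of_mem hqA,
        Finset.sum_insert fun h' => hq (Finset.mem_inter.1 h').1, pd_self hq hsub 2 1 hz]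
      rw [Finset.sum_eq_zero, add_zero]
      intro G hG
      rw [Finset.mem_inter] at hG
      rw [key G hG.1, if_neg fun h' => h' (hAB hG.2), map_zero, map_zero]

/-- the triple product, the same letter `q` -/
theorem t4q_self (hq : q ∉ Y) (hqA : q ∈ A) (k : ℤ)
    {z : Wd α} (hz : z ∈ WS Y) :
    pr q (Hop A k (Hop (B.erase q) 2 (Hop B 1 (cns q z)))) =
      Hop A k (Hop (B.erase q) 2 (Hop B 1 z)) := by
  have hsub := Finset.erase_subset q B
  have hy : Hop (B.erase q) 2 (Hop B 1 (cns q z)) ∈ WS (insert q Y) :=
    Hop_mem _ _ (Hop_mem _ _ (cns_mem hq hz))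
  rw [pr_Hop hy (Finset.mem_insert_self _ _) A k, if_pos hqA, add_zero, pd_self hq hsub 2 1 hz]

end t4

/-- `A_k (S_1 S_1 - S_2)` -/
theorem g2_pos_bb {X : Finset α} (A S : Finset α) (k : ℤ) {z : Wd α} (hz : z ∈ WS X) (hn : WN z) :
    WN (Hop A k (Hop S 1 (Hop S 1 z)) - Hop A k (Hop S 2 z)) := by
  have p1 := two_pos (X := X) (Finset.Subset.refl S) (a := 1) (b := 1) (by norm_num) (by norm_num)
    (by
      rw [Finset.sdiff_self, Finset.empty_inter, Finset.card_empty]
      norm_num) hz hn
  have b2 : (1 : ℤ) + 1 = 2 := by norm_num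
  rw [b2] at p1
  have p2 := WN_Hop3 A k (Submodule.sub_mem _ (Hop_mem _ _ (Hop_mem _ _ hz))
    (Hop_mem _ _ hz)) p1
  rwa [map_sub] at p2

/-- `A_k ((B'-h)_2 (B-h)_1 - (B'-h)_3)` -/
theorem g2_pos_21 {X : Finset α} (A B : Finset α) (q h : α) (k : ℤ) {z : Wd α} (hz : z ∈ WS X)
    (hn : WN z) :
    WN (Hop A k (Hop ((B.erase q).erase h) 2 (Hop (B.erase h) 1 z)) -
      Hop A k (Hop ((B.erase q).erase h) 3 z)) := by
  have hs : (B.erase q).erase h ⊆ B.erase h := Finset.erase_subset_erase h (Finset.erase_subset q B)
  have p1 := two_pos (X := X) hs (a := 2) (b := 1) (by norm_num) (by norm_num)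
    (by
      have h1 : (B.erase h \ (B.erase q).erase h) ∩ X ⊆ {q} := by
        intro x hx
        simp only [Finset.mem_inter, Finset.mem_sdiff, Finset.mem_erase] at hx
        rw [Finset.mem_singleton]
        by_contra hne
        exact hx.1.2 ⟨hx.1.1.1, hne, hx.1.1.2⟩
      have h2 := Finset.card_le_card h1
      rw [Finset.card_singleton] at h2
      omega) hz hn
  have b3 : (2 : ℤ) + 1 = 3 := by norm_num
  rw [b3] at p1
  have p2 := WN_Hop3 A k (Submodule.sub_mem _ (Hop_mem _ _ (Hop_mem _ _ hz))
    (Hop_mem _ _ hz)) p1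
  rwa [map_sub] at p2

/-- the identity for a second letter -/
theorem g2_low_id {X : Finset α} (A : Finset α) {B : Finset α} {q h : α} (hqB : q ∈ B) (hq : q ∈ X)
    (hh : h ∈ B.erase q) (hhX : h ∈ X) (hhq : h ≠ q) (k : ℤ) {z : Wd α} (hz : z ∈ WS X) :
    Hop A k (Hop (B.erase q) 1 (Hop (B.erase h) 1 z)) =
      Hop A k (Hop ((B.erase q).erase h) 2 z) + Hop A k (Hop (B.erase q) 1 (rl (swap q h) z)) -
      Hop A k (Hop (B.erase q) 2 z) + Hop A k (Hop (B.erase q) 1 (Hop B 1 z)) := by
  have h1 := Hop_id1 hh (Finset.erase_subset q B) hhX 2 hz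
  have e : (2 : ℤ) - 1 = 1 := by norm_num
  have hs : (B \ B.erase q) ∩ X = {q} := by
    ext x
    simp only [Finset.mem_inter, Finset.mem_sdiff, Finset.mem_erase, Finset.mem_singleton]
    constructor
    · rintro ⟨⟨h1, h2⟩, _⟩
      by_contra hne
      exact h2 ⟨hne, h1⟩
    · rintro rfl
      exact ⟨⟨hqB, fun h' => h'.1 rfl⟩, hq⟩
  rw [e, hs, Finset.sum_singleton, swap_comm h q] at h1
  rw [h1, map_add, map_add, map_sub]
  abel

theorem nu_pos_aux (n : ℕ) : ∀ X : Finset α, X.card = n → ∀ (A B : Finset α) (q : α)
    (k : ℤ), q ∈ A → A ⊆ B → q ∈ X → (((B \ A) ∩ X).card : ℤ) + 1 ≤ k →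
    ((B \ A) ∩ X).card ≤ 1 → ∀ z : Wd α, z ∈ WS X → WN z → WN (nuk X A B q k z) := by
  induction n with
  | zero =>
    intro X hX A B q k _ _ hq
    rw [Finset.card_eq_zero] at hX
    rw [hX] at hq
    simp at hq
  | succ n ih =>
    intro X hX A B q k hqA hAB hqX hk hg1 z hz hn
    have hk0 : 1 ≤ k := by omega
    rw [← nukE_apply]
    refine WN_of_words (nukE X A B q k) ?_ hz hn
    intro u hu huX
    rw [nukE_apply]
    clear hz hn z
    match u, hu, huX with
    | [], _, huX =>
      rw [List.toFinset_nil] at huX
      rw [← huX] at hX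
      simp at hX
    | h :: u, hu, huX =>
      obtain ⟨hq', hu'⟩ := List.nodup_cons.1 hu
      obtain ⟨Y, hY⟩ : ∃ Y, Y = u.toFinset := ⟨_, rfl⟩
      have hh : h ∉ Y := fun h' => hq' (List.mem_toFinset.1 (hY ▸ h'))
      have hXi : X = insert h Y := by
        rw [← huX, List.toFinset_cons, hY]
      have hz : wd u ∈ WS Y := wd_mem u hu' hY.symm
      have hn : WN (wd u) := WN.wd u
      rw [← cns_wd]
      generalize wd u = z at hz hn
      clear hu hq' hu' huX hY u
      subst hXi
      have hYc : Y.card = n := by
        rw [Finset.card_insert_of_notMem hh] at hX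
        omega
      have hsub : Y ⊆ insert h Y := Finset.subset_insert _ _
      have gY := card_le3 (A := A) (B := B) hsub
      refine WN_of_pr ⟨h, Finset.mem_insert_self _ _⟩
        (nuk_mem hqX k (cns_mem hh hz)) ?_
      intro E hE
      have ex : pr E (nuk (insert h Y) A B q k (cns h z)) =
          pr E (Hop A k (Hop (B.erase q) 2 (Hop B 1 (cns h z)))) -
            pr E (Hop A k (Hop (B.erase q) 3 (cns h z))) -
            pr E (Hop A (k + 1) (Hop (B.erase q) 2 (cns h z))) +
            (pr E (Hop (A.erase q) (k + 3) (cns h z)) +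
            pr E (∑ l ∈ (B \ A) ∩ insert h Y, Hop A (k + 2) (rl (swap q l) (cns h z)))) := by
        unfold nuk
        rw [map_add, map_add, map_sub, map_sub]
      rw [ex]
      clear ex
      have a2 : (2 : ℤ) - 1 = 1 := by norm_num
      have a3 : (3 : ℤ) - 1 = 2 := by norm_num
      have a4 : k + 3 - 1 = k + 2 := by ring
      have a5 : k + 2 - 1 = k + 1 := by ring
      have a6 : k + 1 - 1 = k := by ring
      have a7 : k - 1 + 1 = k := by ring
      have a8 : k - 1 + 2 = k + 1 := by ring
      have a9 : k - 1 + 3 = k + 2 := by ring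
      have b2 : (1 : ℤ) + 1 = 2 := by norm_num
      have b3 : (1 : ℤ) + 2 = 3 := by norm_num
      have b3' : (2 : ℤ) + 1 = 3 := by norm_num
      have b4 : k + 1 + 1 = k + 2 := by ring
      have b4' : k - 1 + 1 + 1 = k + 1 := by ring
      have b5 : k + 1 + 2 = k + 3 := by ring
      have hsubq := Finset.erase_subset q B
      by_cases hqh : q = h
      · -- the first letter is `q`
        subst hqh
        rw [t3q hh hqA (k + 2) hz hE]
        rcases Finset.mem_insert.1 hE with rfl | hEY
        · rw [t4q_self hh hqA k hz, pr_two_self hh A _ k 3 hz, if_neg fun h' => h'.1 hqA,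
            add_zero, pr_two_self hh A _ (k + 1) 2 hz, if_neg fun h' => h'.1 hqA, add_zero,
            pr_Hop_self hh _ _ hz, if_neg fun h' => (Finset.mem_sdiff.1 h').2 hqA, add_zero]
          have e : Hop A k (Hop (B.erase E) 2 (Hop B 1 z)) - Hop A k (Hop (B.erase E) 3 z) -
              Hop A (k + 1) (Hop (B.erase E) 2 z) + Hop (A.erase E) (k + 3) z =
              R3 A B B k 1 2 z := by
            unfold R3
            rw [← Hop_er hh B 2 (Hop_mem B 1 hz), ← Hop_er hh B 3 hz, ← Hop_er hh B 2 hz,
              ← Hop_er hh A (k + 3) hz, Hop_comm (Finset.Subset.refl B) 1 2 hz, b3, b5]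
          rw [e]
          exact R3B_pos hAB hk0 (by norm_num) (by omega) hz hn
        · have hzE : rl (swap E q) z ∈ WS ((insert q Y).erase E) := swap_mem hh hEY hz
          have hnE : WN (rl (swap E q) z) := WN_rl _ hn
          rw [t4q_ne hh hEY hqA hAB k hz, pr_two_ne hh hEY A _ k 3 hz, sing0 hAB hh,
            Finset.sum_empty, ite_self, add_zero,
            if_neg (fun h' => Finset.notMem_erase q B h'.1 :
              ¬ (q ∈ B.erase q ∧ E ∉ B.erase q)), add_zero,
            pr_two_ne hh hEY A _ (k + 1) 2 hz, sing0 hAB hh,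
            Finset.sum_empty, ite_self, add_zero,
            if_neg (fun h' => Finset.notMem_erase q B h'.1 :
              ¬ (q ∈ B.erase q ∧ E ∉ B.erase q)), add_zero,
            pr_Hop_ne hh hEY _ _ hz,
            if_neg (fun h' => Finset.notMem_erase q A h'.1 :
              ¬ (q ∈ A.erase q ∧ E ∉ A.erase q)), zero_add, a6]
          by_cases hEA : E ∈ A
          · have hEB := hAB hEA
            simp only [hEA, hEB, hqA, Finset.mem_sdiff, not_true_eq_false, and_false, if_false,
              add_zero, sub_zero]
            exact WN.zero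
          · have hEq : E ≠ q := fun h' => hEA (h' ▸ hqA)
            by_cases hEB : E ∈ B
            · simp only [hEA, hEB, hqA, Finset.mem_sdiff, not_true_eq_false, not_false_eq_true,
                and_true, true_and, if_true, if_false, zero_add]
              rw [cj_in hh (Finset.mem_erase.2 ⟨hEq, hEB⟩) 2 (Hop_mem _ _ hz),
                cj_in hh (Finset.mem_erase.2 ⟨hEq, hEB⟩) 3 hz,
                cj_in hh (Finset.mem_erase.2 ⟨hEq, hEB⟩) 2 hz,
                Finset.insert_erase (hAB hqA), cj_both3 hh (hAB hqA) hEB 1 hz]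
              have g := card_lt3 (A := A) hE hEB hEA
              have e : Hop A (k - 1) (Hop B 2 (Hop B 1 (rl (swap E q) z))) -
                  Hop A (k - 1) (Hop B 3 (rl (swap E q) z)) - Hop A k (Hop B 2 (rl (swap E q) z)) +
                  Hop A (k + 2) (rl (swap E q) z) = R3 A B B (k - 1) 1 2 (rl (swap E q) z) := by
                unfold R3
                rw [Hop_comm (Finset.Subset.refl B) 1 2 hzE, b3, a7]
              rw [e]
              exact R3B_pos hAB (by omega) (by norm_num) (by omega) hzE hnE
            · simp only [hEA, hEB, hqA, Finset.mem_sdiff, not_false_eq_true,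
                and_true, false_and, if_true, if_false, add_zero]
              rw [cj_out3 hh (fun h' => hEB (Finset.mem_of_mem_erase h')) 2 (Hop_mem _ _ hz),
                cj_out3 hh (fun h' => hEB (Finset.mem_of_mem_erase h')) 3 hz,
                cj_out3 hh (fun h' => hEB (Finset.mem_of_mem_erase h')) 2 hz,
                cj_out3 hh hEB 1 hz, Finset.erase_idem]
              have p1 := two_pos (X := (insert q Y).erase E) (Finset.Subset.refl (B.erase q))
                (a := 2) (b := 1) (by norm_num) (by norm_num) (by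
                  rw [Finset.sdiff_self, Finset.empty_inter, Finset.card_empty]
                  norm_num) hzE hnE
              rw [b3'] at p1
              have p2 := WN_Hop3 A (k - 1) (Submodule.sub_mem _ (Hop_mem _ _ (Hop_mem _ _ hzE))
                (Hop_mem _ _ hzE)) p1
              rw [map_sub] at p2
              convert p2 using 1
              abel
      · -- the first letter is not `q`
        have hq : q ∈ Y := (Finset.mem_insert.1 hqX).resolve_left hqh
        have hhq : h ≠ q := fun h' => hqh h'.symm
        have hqB : q ∈ B := hAB hqA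
        rcases Finset.mem_insert.1 hE with rfl | hEY
        · -- the same letter
          rw [t4_self hh hqA hAB hq k hz, t1_self hh hqA hAB hq k 3 hz,
            t1_self hh hqA hAB hq (k + 1) 2 hz, pr_Hop_self hh _ _ hz, a3, a2, a6]
          by_cases hhB : E ∈ B \ A
          · have hhB' := Finset.mem_sdiff.1 hhB
            rw [if_pos ⟨hhB'.2, hhB'.1⟩, if_pos ⟨hhB'.2, hhB'.1⟩, if_pos ⟨hhB'.2, hhB'.1⟩,
              t3b_self hh hq hqA hhB (k + 2) hz, a5]
            have g := card_lt3 (A := A) hE hhB'.1 hhB'.2
            rw [Finset.erase_insert hh] at g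
            have p1 := ih Y hYc A B q k hqA hAB hq (by omega) (by omega) z hz hn
            have p2 := R3B_pos (X := Y) hAB (a := k - 1) (c := 1) (by omega) (by norm_num)
              (by omega) hz hn
            have p3 := WN.add p1 p2
            unfold nuk R3 at p3
            rw [b2, b4', a7] at p3
            convert p3 using 1
            abel
          · have hc : ¬ (E ∉ A ∧ E ∈ B) := fun h' => hhB (Finset.mem_sdiff.2 ⟨h'.2, h'.1⟩)
            rw [if_neg hc, if_neg hc, if_neg hc, add_zero, add_zero, add_zero,
              t3_self hh hq hhB (k + 2) hz]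
            exact ih Y hYc A B q k hqA hAB hq (by omega) (by omega) z hz hn
        · -- another letter
          have hEh : E ≠ h := fun h' => hh (h' ▸ hEY)
          have hzE : rl (swap E h) z ∈ WS ((insert h Y).erase E) := swap_mem hh hEY hz
          have hnE : WN (rl (swap E h) z) := WN_rl _ hn
          have hZc : ((insert h Y).erase E).card = n := by
            rw [Finset.card_erase_of_mem hE, hX]
            rfl
          have gZ := card_le3 (A := A) (B := B) (Finset.erase_subset E (insert h Y))
          have hz1 : Hop B 1 z ∈ WS Y := Hop_mem _ _ hz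
          have hy : rl (swap q h) z ∈ WS ((insert h Y).erase q) := swap_mem hh hq hz
          have hy1 : rl (swap q h) (Hop B 1 z) ∈ WS ((insert h Y).erase q) := swap_mem hh hq hz1
          have hq' : q ∉ (insert h Y).erase q := Finset.notMem_erase _ _
          have hhZ : h ∈ (insert h Y).erase E :=
            Finset.mem_erase.2 ⟨hEh.symm, Finset.mem_insert_self _ _⟩
          rw [t4_ne hh hEY hqA hAB hq k hz, t1_ne hh hEY hqA hAB hq k 3 hz,
            t1_ne hh hEY hqA hAB hq (k + 1) 2 hz, pr_Hop_ne hh hEY _ _ hz, a2, a3, a4, a6]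
          have a1 : (h ∈ A.erase q ∧ E ∉ A.erase q) ↔ (h ∈ A ∧ (E = q ∨ E ∉ A)) := by
            rw [Finset.mem_erase, Finset.mem_erase]
            tauto
          simp only [a1]
          have hqh1 : rl (swap q h) (Hop B 1 z) =
              if h ∈ B then Hop B 1 (rl (swap q h) z) else rl (swap q h) (Hop B 1 z) := by
            by_cases hB : h ∈ B
            · rw [if_pos hB, cj_both3 hh hB hqB 1 hz]
            · rw [if_neg hB]
          by_cases hhA : h ∈ A
          · have hhB := hAB hhA
            have hhs : h ∉ B \ A := fun h' => (Finset.mem_sdiff.1 h').2 hhA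
            rw [if_pos hhB] at hqh1
            rw [t3_ne hh hq hEY hhs (k + 2) hz, a5, hqh1]
            simp only [hhA, hhB, true_and]
            by_cases hEA : E ∈ A
            · have hEB := hAB hEA
              simp only [hEA, hEB, not_true_eq_false, or_false, if_false, zero_add, add_zero,
                sub_zero]
              by_cases hEq : E = q
              · subst hEq
                simp only [if_true]
                have e : Hop A k (Hop (B.erase E) 1 (rl (swap E h) (Hop B 1 z))) -
                    Hop A k (Hop (B.erase E) 2 (rl (swap E h) z)) -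
                    Hop A (k + 1) (Hop (B.erase E) 1 (rl (swap E h) z)) +
                    Hop (A.erase E) (k + 2) (rl (swap E h) z) =
                    R3 A B B k 1 1 (rl (swap E h) z) := by
                  unfold R3
                  rw [cj_both3 hh hhB hEB 1 hz, ← Hop_er hq' B 1 (Hop_mem B 1 hzE),
                    ← Hop_er hq' B 2 hzE, ← Hop_er hq' B 1 hzE, ← Hop_er hq' A (k + 2) hzE,
                    b2, b4]
                rw [e]
                exact R3B_pos hAB hk0 (by norm_num) (by omega) hzE hnE
              · simp only [hEq, if_false, map_zero, sub_zero, add_zero]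
                exact WN.zero
            · have hEq : E ≠ q := fun h' => hEA (h' ▸ hqA)
              have hqZ : q ∈ (insert h Y).erase E := Finset.mem_erase.2 ⟨hEq.symm, hqX⟩
              have hw : rl (swap q h) (rl (swap E h) z) ∈ WS ((insert h Y).erase E) :=
                rl_swap_mem hqZ hhZ hzE
              have hnw : WN (rl (swap q h) (rl (swap E h) z)) := WN_rl _ hnE
              have s1 : rl (swap E q) (rl (swap q h) z) = rl (swap q h) (rl (swap E h) z) := by
                rw [rl_rl, rl_rl, sw1 hEh hqh hEq]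
              simp only [hEA, hEq, not_false_eq_true, or_true, if_true, false_or]
              have s2 : ∀ l ∈ (B \ A) ∩ (insert h Y).erase E, l ∈ Y ∧
                  rl (swap E h) (rl (swap q l) z) = rl (swap q l) (rl (swap E h) z) := by
                intro l hl
                rw [Finset.mem_inter, Finset.mem_sdiff, Finset.mem_erase, Finset.mem_insert] at hl
                have hlh : l ≠ h := fun h' => hl.1.2 (h' ▸ hhA)
                refine ⟨hl.2.2.resolve_left hlh, ?_⟩
                rw [rl_rl, rl_rl, sw2 hEq hl.2.1.symm hhq hlh.symm]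
              by_cases hEB : E ∈ B
              · simp only [hEB, not_true_eq_false, if_false, add_zero, map_zero, zero_add]
                have m1 := Finset.mem_erase.2 ⟨hhq, hhB⟩
                have m2 := Finset.mem_erase.2 ⟨hEq, hEB⟩
                rw [cj_both3 hh m1 m2 2 hz1, cj_both3 hh hhB hEB 1 hz, cj_both3 hh m1 m2 3 hz,
                  cj_both3 hh m1 m2 2 hz, cj_in hq' m2 1 (Hop_mem _ _ hy),
                  cj_in hq' m2 2 hy, cj_in hq' m2 1 hy,
                  Finset.insert_erase hqB, cj_both3 hq' hqB hEB 1 hy, s1]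
                have hs : (B \ A) ∩ Y = insert E ((B \ A) ∩ (insert h Y).erase E) := by
                  ext x
                  simp only [Finset.mem_insert, Finset.mem_inter, Finset.mem_sdiff,
                    Finset.mem_erase]
                  constructor
                  · rintro ⟨h1, h2⟩
                    by_cases hxE : x = E
                    · exact Or.inl hxE
                    · exact Or.inr ⟨h1, hxE, Or.inr h2⟩
                  · rintro (rfl | ⟨h1, _, rfl | h2⟩)
                    · exact ⟨⟨hEB, hEA⟩, hEY⟩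
                    · exact absurd hhA h1.2
                    · exact ⟨h1, h2⟩
                have s3 : rl (swap E h) (rl (swap q E) z) =
                    rl (swap q h) (rl (swap E h) z) := by
                  rw [rl_rl, rl_rl, sw3 hEh hqh hEq]
                have hs' : ∑ l ∈ (B \ A) ∩ Y,
                    Hop A (k + 1) (rl (swap E h) (rl (swap q l) z)) =
                    Hop A (k + 1) (rl (swap q h) (rl (swap E h) z)) +
                    ∑ l ∈ (B \ A) ∩ (insert h Y).erase E,
                      Hop A (k + 1) (rl (swap q l) (rl (swap E h) z)) := by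
                  rw [hs, Finset.sum_insert (fun h' =>
                    Finset.notMem_erase E _ (Finset.mem_inter.1 h').2), s3]
                  congr 1
                  exact Finset.sum_congr rfl fun l hl => by rw [(s2 l hl).2]
                rw [hs']
                have g := card_lt3 (A := A) hE hEB hEA
                have p1 := ih _ hZc A B q (k - 1) hqA hAB hqZ (by omega) (by omega) _ hzE hnE
                have p2 := R3B_pos hAB (a := k - 1) (c := 1) (by omega) (by norm_num)
                  (by omega) hw hnw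
                have p3 := WN.add p1 p2
                unfold nuk R3 at p3
                rw [b2, b4', a9, a8, a7] at p3
                convert p3 using 1
                abel
              · simp only [hEB, not_false_eq_true, if_true]
                have m3 : E ∉ B.erase q := fun h' => hEB (Finset.mem_of_mem_erase h')
                rw [cj_out3 hh m3 2 hz1, cj_out3 hh hEB 1 hz, cj_out3 hh m3 3 hz,
                  cj_out3 hh m3 2 hz, cj_out3 hq' m3 1 (Hop_mem _ _ hy),
                  cj_out3 hq' m3 2 hy, cj_out3 hq' m3 1 hy, cj_out3 hq' hEB 1 hy,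
                  Finset.erase_idem, s1]
                have hs : (B \ A) ∩ Y = (B \ A) ∩ (insert h Y).erase E := by
                  ext x
                  simp only [Finset.mem_insert, Finset.mem_inter, Finset.mem_sdiff,
                    Finset.mem_erase]
                  constructor
                  · rintro ⟨h1, h2⟩
                    exact ⟨h1, fun h' => hEB (h' ▸ h1.1), Or.inr h2⟩
                  · rintro ⟨h1, _, rfl | h2⟩
                    · exact absurd hhA h1.2
                    · exact ⟨h1, h2⟩
                have hs' : ∑ l ∈ (B \ A) ∩ Y,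
                    Hop A (k + 1) (rl (swap E h) (rl (swap q l) z)) =
                    ∑ l ∈ (B \ A) ∩ (insert h Y).erase E,
                      Hop A (k + 1) (rl (swap q l) (rl (swap E h) z)) := by
                  rw [hs]
                  exact Finset.sum_congr rfl fun l hl => by rw [(s2 l hl).2]
                rw [hs']
                have p1 := R3B_pos (X := (insert h Y).erase E) hAB (a := k) (c := 1) hk0
                  (by norm_num) (by omega) hzE hnE
                rw [g2_R3_one hqA hAB hqZ k hzE] at p1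
                have p2 := g2_pos_bb A (B.erase q) (k - 1) hw hnw
                have p3 := g2_pos_21 A B q h (k - 1) hzE hnE
                have p4 := WN.add (WN.add p1 p2) p3
                have hid := g2_low_id A hqB hqZ (Finset.mem_erase.2 ⟨hhq, hhB⟩) hhZ hhq k hzE
                rw [map_add, hid]
                convert p4 using 1
                abel
          · by_cases hhB : h ∈ B
            · have hhs : h ∈ B \ A := Finset.mem_sdiff.2 ⟨hhB, hhA⟩
              rw [if_pos hhB] at hqh1
              rw [t3b_ne hh hq hqA hEY hhs (k + 2) hz, a5, hqh1]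
              simp only [hhA, hhB, false_and, true_and, if_false, zero_add, add_zero]
              by_cases hEA : E ∈ A
              · have hEB := hAB hEA
                simp only [hEA, hEB, not_true_eq_false, or_false, if_false, zero_add, add_zero]
                by_cases hEq : E = q
                · subst hEq
                  simp only [if_true]
                  have e : Hop A k (Hop (B.erase E) 1 (rl (swap E h) (Hop B 1 z))) -
                      Hop A k (Hop (B.erase E) 2 (rl (swap E h) z)) -
                      Hop A (k + 1) (Hop (B.erase E) 1 (rl (swap E h) z)) +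
                      Hop A (k + 2) (rl (swap E h) z) =
                      R3 A B B k 1 1 (rl (swap E h) z) := by
                    unfold R3
                    rw [cj_both3 hh hhB hEB 1 hz, ← Hop_er hq' B 1 (Hop_mem B 1 hzE),
                      ← Hop_er hq' B 2 hzE, ← Hop_er hq' B 1 hzE, b2, b4]
                  rw [e]
                  exact R3B_pos hAB hk0 (by norm_num) (by omega) hzE hnE
                · simp only [hEq, if_false, map_zero, sub_zero, add_zero]
                  exact WN.zero
              · have hEq : E ≠ q := fun h' => hEA (h' ▸ hqA)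
                have hqZ : q ∈ (insert h Y).erase E := Finset.mem_erase.2 ⟨hEq.symm, hqX⟩
                have hw : rl (swap q h) (rl (swap E h) z) ∈ WS ((insert h Y).erase E) :=
                  rl_swap_mem hqZ hhZ hzE
                have hnw : WN (rl (swap q h) (rl (swap E h) z)) := WN_rl _ hnE
                have s1 : rl (swap E q) (rl (swap q h) z) =
                    rl (swap q h) (rl (swap E h) z) := by
                  rw [rl_rl, rl_rl, sw1 hEh hqh hEq]
                have hone : ∀ x ∈ (B \ A) ∩ insert h Y, x = h := by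
                  intro x hx
                  exact Finset.card_le_one.1 hg1 x hx h
                    (Finset.mem_inter.2 ⟨hhs, Finset.mem_insert_self _ _⟩)
                have hEB : E ∉ B := fun h' =>
                  hEh (hone E (Finset.mem_inter.2 ⟨Finset.mem_sdiff.2 ⟨h', hEA⟩, hE⟩))
                simp only [hEA, hEq, hEB, not_false_eq_true, or_true, if_true, if_false]
                have m3 : E ∉ B.erase q := fun h' => hEB (Finset.mem_of_mem_erase h')
                rw [cj_out3 hh hEB 1 hz, cj_out3 hq' m3 1 (Hop_mem _ _ hy),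
                  cj_out3 hq' m3 2 hy, cj_out3 hq' m3 1 hy, cj_out3 hq' hEB 1 hy,
                  Finset.erase_idem, s1]
                have hs : (B \ A) ∩ (insert h Y).erase E = {h} := by
                  ext x
                  rw [Finset.mem_singleton]
                  constructor
                  · intro hx
                    rw [Finset.mem_inter] at hx
                    exact hone x (Finset.mem_inter.2 ⟨hx.1, Finset.mem_of_mem_erase hx.2⟩)
                  · rintro rfl
                    exact Finset.mem_inter.2 ⟨hhs, hhZ⟩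
                have p1 := R3B_pos (X := (insert h Y).erase E) hAB (a := k) (c := 1) hk0
                  (by norm_num) (by omega) hzE hnE
                rw [g2_R3_one hqA hAB hqZ k hzE, hs, Finset.sum_singleton] at p1
                have p2 := g2_pos_bb A (B.erase q) (k - 1) hw hnw
                have p3 := rho_pos hqA (Finset.Subset.refl A) hqZ (k := k) (e := 2) (by
                  rw [Finset.sdiff_self, Finset.empty_inter, Finset.card_empty]
                  push_cast
                  omega) (by norm_num) hzE hnE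
                unfold rho at p3
                rw [Finset.sdiff_self, Finset.empty_inter, Finset.sum_empty, sub_zero] at p3
                have p4 := WN.add (WN.add p1 p2) p3
                have hid := g2_low_id A hqB hqZ (Finset.mem_erase.2 ⟨hhq, hhB⟩) hhZ hhq k hzE
                have hc : Hop ((B.erase q).erase h) 2 (rl (swap E h) z) =
                    Hop (A.erase q) 2 (rl (swap E h) z) := by
                  refine Hop_congr (fun x hx => ?_) 2 hzE
                  simp only [Finset.mem_erase]
                  constructor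
                  · rintro ⟨h1, h2, h3⟩
                    refine ⟨h2, ?_⟩
                    by_contra h4
                    exact h1 (hone x (Finset.mem_inter.2 ⟨Finset.mem_sdiff.2 ⟨h3, h4⟩,
                      Finset.mem_of_mem_erase hx⟩))
                  · rintro ⟨h1, h2⟩
                    exact ⟨fun h' => hhA (h' ▸ h2), h1, hAB h2⟩
                rw [hc] at hid
                rw [map_add, hid]
                convert p4 using 1
                abel
            · have hhs : h ∉ B \ A := fun h' => hhB (Finset.mem_sdiff.1 h').1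
              rw [t3_ne hh hq hEY hhs (k + 2) hz]
              simp only [hhA, hhB, false_and, if_false, add_zero, sub_zero, map_zero]
              exact WN.zero

theorem nu_pos {X A B : Finset α} {q : α} (hqA : q ∈ A) (hAB : A ⊆ B) (hq : q ∈ X) {k : ℤ}
    (hk : (((B \ A) ∩ X).card : ℤ) + 1 ≤ k) (h1 : ((B \ A) ∩ X).card ≤ 1) {z : Wd α}
    (hz : z ∈ WS X) (hn : WN z) : WN (nuk X A B q k z) :=
  nu_pos_aux _ X rfl A B q k hqA hAB hq hk h1 z hz hn

end H50R
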